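import Pool.Agent.Helper96.SE.Stmts

/-!
# Additional cities
-/

set_option autoImplicit false

namespace Pool.Agent.Helper96.SE

open Pool.Agent.Helper31.BC (dst tourLen Placement Pair Ineq Refutes)
open Pool.Agent.Helper38.MR (Edge Graph)
open Pool.Agent.Helper68.LP (padded sc near)

theorem pad_tri (p q r : ℤ × ℤ) : dst p r ≤ dst p q + dst q r := Pool.Agent.Helper68.LP.dE_tri p q r

theorem pad_sc (S : ℕ) (p q : ℤ × ℤ) : dst (sc S p) (sc S q) = S * dst p q :=
  Pool.Agent.Helper68.LP.dE_sc S p q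

theorem pad_dst_near (c : ℤ × ℤ) (t : ℕ) : dst (c.1 + (t : ℤ), c.2) (near c t) = 1 := by
  unfold dst near
  simp

theorem pad_dst_near' (c : ℤ × ℤ) (t : ℕ) : dst (near c t) (c.1 + (t : ℤ), c.2) = 1 := by
  unfold dst near
  simp

theorem pad_mono {n m : ℕ} {A B : Type} {Q : Fin n → ℤ × ℤ} {b b' : ℝ} (h : b ≤ b')
    {gA : A → Graph m} {gB : B → Graph m} {f : A → Pair n → ℤ} {g : B → Pair n → ℤ}
    (hs : Spl (TwoFactor Q b) gA gB f g) : Spl (TwoFactor Q b') gA gB f g :=
  ⟨fun α β => ⟨(hs.mem α β).bin, (hs.mem α β).deg, (hs.mem α β).len.trans h⟩, hs.leaf⟩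

theorem pad_scale {n m : ℕ} {A B : Type} {P : Fin n → ℤ × ℤ} {b : ℝ} (L : ℕ)
    {gA : A → Graph m} {gB : B → Graph m} {f : A → Pair n → ℤ} {g : B → Pair n → ℤ}
    (hs : Spl (TwoFactor P b) gA gB f g) :
    Spl (TwoFactor (fun i => sc L (P i)) (L * b)) gA gB f g := by
  refine ⟨fun α β => ⟨(hs.mem α β).bin, (hs.mem α β).deg, ?_⟩, hs.leaf⟩
  have h := mul_le_mul_of_nonneg_left (hs.mem α β).len (Nat.cast_nonneg (α := ℝ) L)
  rw [Finset.mul_sum] at h
  refine le_trans (le_of_eq ?_) h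
  refine Finset.sum_congr rfl fun e _ => ?_
  rw [pad_sc]
  ring

/-- the invariant: an edge which is always used, one of its ends and the position of the other -/
def pad_Inv {m : ℕ} {A B : Type} (gA : A → Graph m) (gB : B → Graph m) (n : ℕ)
    (Q : Fin n → ℤ × ℤ) (b : ℝ) (q : ℤ × ℤ) : Prop :=
  ∃ (f : A → Pair n → ℤ) (g : B → Pair n → ℤ) (e : Pair n) (w : Fin n),
    ((w = e.1.1 ∧ Q e.1.2 = q) ∨ (w = e.1.2 ∧ Q e.1.1 = q)) ∧ Spl (TwoFactor Q b) gA gB f g ∧
      ∀ α β, f α e + g β e = 1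

theorem pad_step (h1 : ST_PD1) {m : ℕ} {A B : Type} (gA : A → Graph m) (gB : B → Graph m) (n : ℕ)
    (Q : Fin n → ℤ × ℤ) (b : ℝ) (c : ℤ × ℤ) (t : ℕ) (hn : 3 ≤ n)
    (h : pad_Inv gA gB n Q b (c.1 + (t : ℤ), c.2)) :
    pad_Inv gA gB (n + 1) (Fin.snoc Q (near c t) : Fin (n + 1) → ℤ × ℤ) (b + 2)
      (c.1 + ((t + 1 : ℕ) : ℤ), c.2) := by
  obtain ⟨f, g, e, w, hw, hs, hone⟩ := h
  obtain ⟨f', g', e1, he1, he2, hs', hone'⟩ := h1 n m A B Q b gA gB f g e w (near c t) hn
    (by rcases hw with hw | hw; exacts [Or.inl hw.1, Or.inr hw.1]) hs hone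
  refine ⟨f', g', e1, e1.1.1, Or.inl ⟨rfl, ?_⟩, pad_mono ?_ hs', hone'⟩
  · rw [he2, Fin.snoc_last]
    unfold near
    push_cast
    rfl
  · rcases hw with ⟨-, hw⟩ | ⟨-, hw⟩
    · have a1 := pad_tri (Q e.1.1) (Q e.1.2) (near c t)
      rw [hw, pad_dst_near] at a1
      have a2 := pad_dst_near' c t
      rw [hw, a2]
      linarith
    · have a1 := pad_tri (near c t) (Q e.1.1) (Q e.1.2)
      rw [hw, pad_dst_near'] at a1
      have a2 := pad_dst_near c t
      rw [hw, a2]
      linarith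

theorem pad_zero {n : ℕ} (L : ℕ) (i0 : Fin n) (P : Fin n → ℤ × ℤ) :
    padded L 0 i0 P = fun i => sc L (P i) := by
  funext i
  have h := Fin.append_left (fun i => sc L (P i)) (fun j : Fin 0 => near (sc L (P i0)) j) i
  exact h

theorem pad_succ {n : ℕ} (L t : ℕ) (i0 : Fin n) (P : Fin n → ℤ × ℤ) :
    padded L (t + 1) i0 P =
      (Fin.snoc (padded L t i0 P) (near (sc L (P i0)) t) : Fin (n + t + 1) → ℤ × ℤ) := by
  funext i
  refine Fin.lastCases (n := n + t) ?_ (fun i => ?_) i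
  · have h0 : (Fin.snoc (padded L t i0 P) (near (sc L (P i0)) t) : Fin (n + t + 1) → ℤ × ℤ)
        (Fin.last (n + t)) = near (sc L (P i0)) t := Fin.snoc_last _ _
    refine Eq.trans ?_ h0.symm
    have h := Fin.append_right (fun i => sc L (P i))
      (fun j : Fin (t + 1) => near (sc L (P i0)) j) (Fin.last t)
    exact h
  · have h0 : (Fin.snoc (padded L t i0 P) (near (sc L (P i0)) t) : Fin (n + t + 1) → ℤ × ℤ)
        i.castSucc = padded L t i0 P i := Fin.snoc_castSucc _ _ _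
    refine Eq.trans ?_ h0.symm
    refine Fin.addCases (fun i => ?_) (fun j => ?_) i
    · have h := Fin.append_left (fun i => sc L (P i))
        (fun j : Fin (t + 1) => near (sc L (P i0)) j) i
      have h' := Fin.append_left (fun i => sc L (P i))
        (fun j : Fin t => near (sc L (P i0)) j) i
      exact h.trans h'.symm
    · have h := Fin.append_right (fun i => sc L (P i))
        (fun j : Fin (t + 1) => near (sc L (P i0)) j) j.castSucc
      have h' := Fin.append_right (fun i => sc L (P i))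
        (fun j : Fin t => near (sc L (P i0)) j) j
      exact h.trans h'.symm

/-- Additional cities. -/
theorem st_PAD (h1 : ST_PD1) : ST_PAD := by
  intro n m t L A B P b gA gB f g e0 hn hs hone
  have key : ∀ t : ℕ, pad_Inv gA gB (n + t) (padded L t e0.1.1 P) (L * b + 2 * t)
      ((sc L (P e0.1.1)).1 + (t : ℤ), (sc L (P e0.1.1)).2) := by
    intro t
    induction t with
    | zero =>
      rw [pad_zero]
      refine ⟨f, g, e0, e0.1.2, Or.inr ⟨rfl, ?_⟩, ?_, hone⟩
      · simp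
      · have h := pad_scale L hs
        refine pad_mono ?_ h
        simp
    | succ t ih =>
      rw [pad_succ]
      have h := pad_step h1 gA gB (n + t) _ _ (sc L (P e0.1.1)) t (by omega) ih
      have e : (L : ℝ) * b + 2 * ((t + 1 : ℕ) : ℝ) = L * b + 2 * t + 2 := by
        push_cast
        ring
      rw [e]
      exact h
  obtain ⟨f', g', -, -, -, hs', -⟩ := key t
  exact ⟨f', g', hs'⟩

end Pool.Agent.Helper96.SE
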